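import Pool.Agent.H6.GS2.Targets
import Pool.Agent.H6.GS2.Bas
import Pool.Agent.H20.ENM.QMS

/-!
Row BRK of gsw_modules: the differences of the optimal sums of a window and of its pieces.
-/

set_option autoImplicit false

open Finset Pool.Agent.H6.N4D Pool.Agent.H93 Pool.Agent.H93.GS Pool.Agent.H6.GS2

namespace Pool.Agent.H27.GSW

/-- the linear term and the test -/
theorem brk_lin (lam : ℕ → ℝ) (q N n : ℕ) (g : Ex) :
    lin lam q N n g = 2 * (tx lam q N n g).re := by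
  unfold lin tx
  rw [ac_re]
  have h1 : ∀ m, ((EB.D q m : ℂ) * lam m * (starRingEnd ℂ) (g.f m)).re =
      EB.D q m * (lam m * (g.f m).re) := by
    intro m
    rw [← Complex.ofReal_mul, Complex.re_ofReal_mul, Complex.conj_re]
    ring
  rw [ar_congr 1 N n (fun m _ _ => h1 m)]
  unfold ar
  have h2 : ∀ x : ℕ → ℝ, ∑ m ∈ (Ioc n (n + N)).filter (fun m => 1 ∣ m), EB.D q m * x m =
      (∑ m ∈ (Ioc n (n + N)).filter (fun m => q ∣ m), x m) * q -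
        ∑ m ∈ (Ioc n (n + N)).filter (fun m => 1 ∣ m), x m := by
    intro x
    have h3 : (Ioc n (n + N)).filter (fun m => 1 ∣ m) = Ioc n (n + N) :=
      filter_true_of_mem fun m _ => one_dvd m
    rw [h3, sum_filter, sum_mul, ← sum_sub_distrib]
    refine sum_congr rfl fun m _ => ?_
    unfold EB.D
    split_ifs <;> ring
  rw [h2]
  push_cast
  ring

/-- the inequality of Cauchy and Schwarz -/
theorem brk_cs (S : Finset ℕ) (z : ℕ → ℝ) (A : ℝ) (hA : 0 ≤ A)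
    (h1 : ∑ q ∈ S, 1 / (q : ℝ) ≤ 3) (h2 : ∑ q ∈ S, 1 / (q : ℝ) * z q ^ 2 ≤ A ^ 2) :
    ∑ q ∈ S, 1 / (q : ℝ) * z q ≤ 2 * A := by
  have h3 : (∑ q ∈ S, 1 / (q : ℝ) * z q) ^ 2 ≤
      (∑ q ∈ S, 1 / (q : ℝ)) * ∑ q ∈ S, 1 / (q : ℝ) * z q ^ 2 := by
    have h := Finset.sum_mul_sq_le_sq_mul_sq S (fun q : ℕ => √(1 / (q : ℝ)))
      (fun q => √(1 / (q : ℝ)) * z q)
    have e1 : ∀ q ∈ S, √(1 / (q : ℝ)) * (√(1 / (q : ℝ)) * z q) = 1 / (q : ℝ) * z q := by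
      intro q _
      rw [← mul_assoc, Real.mul_self_sqrt (by positivity)]
    have e2 : ∀ q ∈ S, √(1 / (q : ℝ)) ^ 2 = 1 / (q : ℝ) := by
      intro q _
      rw [Real.sq_sqrt (by positivity)]
    have e3 : ∀ q ∈ S, (√(1 / (q : ℝ)) * z q) ^ 2 = 1 / (q : ℝ) * z q ^ 2 := by
      intro q _
      rw [mul_pow, Real.sq_sqrt (by positivity)]
    rwa [sum_congr rfl e1, sum_congr rfl e2, sum_congr rfl e3] at h
  have h0 : 0 ≤ ∑ q ∈ S, 1 / (q : ℝ) * z q ^ 2 := sum_nonneg fun q _ => by positivity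
  have h4 : (∑ q ∈ S, 1 / (q : ℝ) * z q) ^ 2 ≤ (2 * A) ^ 2 := by
    calc (∑ q ∈ S, 1 / (q : ℝ) * z q) ^ 2 ≤ 3 * A ^ 2 :=
          h3.trans (mul_le_mul h1 h2 h0 (by norm_num))
      _ ≤ (2 * A) ^ 2 := by nlinarith [sq_nonneg A]
  exact abs_le_of_sq_le_sq' h4 (by linarith) |>.2

theorem pf_BRK (hV : T_BVN) (hO : T_OPD) (hU : T_UNQ) (hS : T_SAZ) : GS.T_BRK := by
  intro th hth hth1
  obtain ⟨P₀, L₀, κ, C, hP₀, hL₀, hκ, hκ1, hC, hB⟩ := hV th (1 / th) hth hth1 (by positivity)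
  obtain ⟨m₀, hm₀⟩ := Pool.Agent.H20.ENM.pf_QMS
  refine ⟨κ ^ 2, 4 * √C, P₀, P₀ + L₀ + m₀ + 400, by positivity, by positivity, ?_⟩
  intro lam w n g h A hw hlam hA hg hh hgap hyp
  have e : 2 ^ P₀ * 2 ^ (w - P₀) = 2 ^ w := by
    rw [← pow_add]
    congr 1
    omega
  obtain ⟨g', hg', hd'⟩ := hO th lam 1 (2 ^ w) n hth hlam le_rfl Nat.one_le_two_pow
  have hf : ∀ m ∈ Ioc n (n + 2 ^ w), g.f m = g'.f m := fun m hm =>
    hU th lam 1 (2 ^ w) n g g' le_rfl Nat.one_le_two_pow hg hg' m hm (one_dvd m)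
  have hgap' : gapq th lam 1 (2 ^ P₀) (2 ^ (w - P₀)) n ≤ κ ^ 2 := hgap
  obtain ⟨K, ω, γ, hω, hsum, htx⟩ := hB lam (2 ^ P₀) (2 ^ (w - P₀)) n g' h hlam
    (((Nat.lt_two_pow_self (n := L₀)).le).trans (Nat.pow_le_pow_right (by norm_num) (by omega)))
    (Nat.lt_two_pow_self (n := P₀)).le (by rw [e]; exact hg') hd' hgap' hh
  rw [e] at hsum htx
  have htg : ∀ q, tx lam q (2 ^ w) n g = tx lam q (2 ^ w) n g' := by
    intro q
    unfold tx
    refine ac_congr _ _ _ fun m hm _ => ?_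
    rw [hf m hm]
  -- the worst frequencies
  have hSA : SA lam w n ≤ A ^ 2 := by
    unfold SA
    refine csSup_le ?_ ?_
    · refine ⟨_, 0, fun _ _ => 0, fun q _ => ⟨fun m _ => by simp, by simp⟩, rfl⟩
    · rintro x ⟨α, v, hv, rfl⟩
      exact hyp α v hv
  have hz : ∀ i, ∑ q ∈ EB.QQ w, 1 / (q : ℝ) * zA lam q (2 ^ w) n (γ i) ≤ 2 * A := by
    intro i
    exact brk_cs _ _ A hA (hm₀ w (by omega)).2
      ((hS lam w n (γ i) (by omega) hlam).2.1.trans hSA)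
  have hq : ∀ q ∈ EB.QQ w, 1 ≤ q ∧ q ≤ 2 ^ w := by
    intro q hq
    unfold EB.QQ at hq
    rw [mem_filter, mem_Ioc] at hq
    exact ⟨hq.2.one_lt.le, hq.1.2.trans (Nat.pow_le_pow_right (by norm_num) (Nat.div_le_self _ _))⟩
  have h1 : ∀ q ∈ EB.QQ w, |lin lam q (2 ^ w) n g - lin lam q (2 ^ w) n h| ≤
      2 * ∑ i ∈ range K, ω i * zA lam q (2 ^ w) n (γ i) := by
    intro q hq'
    rw [brk_lin, brk_lin, htg, ← mul_sub, ← Complex.sub_re, abs_mul, abs_two]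
    have h2 := htx q (hq q hq').1 (hq q hq').2
    have h3 := (Complex.abs_re_le_norm (tx lam q (2 ^ w) n g' - tx lam q (2 ^ w) n h)).trans h2
    linarith
  have hω0 : 0 ≤ ∑ i ∈ range K, ω i := sum_nonneg fun i _ => hω i
  have hsq : ∑ i ∈ range K, ω i ≤
      √C * √(En th lam 1 (2 ^ w) n - J th lam 1 (2 ^ w) n h) := by
    rw [← Real.sqrt_mul hC.le]
    exact Real.le_sqrt_of_sq_le hsum
  calc ∑ q ∈ EB.QQ w, 1 / (q : ℝ) * |lin lam q (2 ^ w) n g - lin lam q (2 ^ w) n h|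
      ≤ ∑ q ∈ EB.QQ w, 1 / (q : ℝ) * (2 * ∑ i ∈ range K, ω i * zA lam q (2 ^ w) n (γ i)) :=
        sum_le_sum fun q hq' => mul_le_mul_of_nonneg_left (h1 q hq') (by positivity)
    _ = 2 * ∑ i ∈ range K, ω i * ∑ q ∈ EB.QQ w, 1 / (q : ℝ) * zA lam q (2 ^ w) n (γ i) := by
        simp only [mul_sum]
        rw [sum_comm]
        refine sum_congr rfl fun i _ => sum_congr rfl fun q _ => ?_
        ring
    _ ≤ 2 * ∑ i ∈ range K, ω i * (2 * A) :=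
        mul_le_mul_of_nonneg_left
          (sum_le_sum fun i _ => mul_le_mul_of_nonneg_left (hz i) (hω i)) (by norm_num)
    _ = 4 * A * ∑ i ∈ range K, ω i := by
        rw [← sum_mul]
        ring
    _ ≤ 4 * A * (√C * √(En th lam 1 (2 ^ w) n - J th lam 1 (2 ^ w) n h)) :=
        mul_le_mul_of_nonneg_left hsq (by positivity)
    _ = 4 * √C * A * √(En th lam 1 (2 ^ w) n - J th lam 1 (2 ^ w) n h) := by ring

end Pool.Agent.H27.GSW
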